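import Pool.Agent.MNU.StmtsU

set_option autoImplicit false

/-!
# GPR: two good primes
-/

namespace Pool.Agent.MNU.H16

open Polynomial NumberField
open IsDedekindDomain

theorem le_of_height {K : Type} [Field K] [NumberField K] {ι : Type} [Fintype ι]
    (y : ι → K) (hy : ∀ i, y i ≠ 0) (H : ℝ) (hH : Height.mulHeight y ≤ H) (p : ℕ) (hp : p.Prime)
    (hpH : H < p) (w : HeightOneSpectrum (𝓞 K)) (hw : ((p : ℕ) : 𝓞 K) ∈ w.asIdeal) (i j : ι) :
    w.valuation K (y i) ≤ w.valuation K (y j) := by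
  obtain ⟨n, hn0, hn, hint⟩ := NumberField.exists_nat_le_mulHeight₁ (y i / y j)
  have h1 : Height.mulHeight₁ (y i / y j) ≤ H := by
    rw [Height.mulHeight₁_div_eq_mulHeight]
    have := Height.mulHeight_comp_le ![i, j] y
    have e : (y ∘ ![i, j]) = ![y i, y j] := by
      ext k; fin_cases k <;> rfl
    rw [e] at this
    exact this.trans hH
  have h2 : n < p := by
    have : (n : ℝ) < p := lt_of_le_of_lt (hn.trans h1) hpH
    exact_mod_cast this
  have h3 : ((n : ℕ) : 𝓞 K) ∉ w.asIdeal := by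
    intro h
    have hc : Nat.Coprime n p := by
      rw [Nat.coprime_comm, Nat.Prime.coprime_iff_not_dvd hp]
      intro hd
      exact absurd (Nat.le_of_dvd (Nat.pos_of_ne_zero hn0) hd) (not_le.2 h2)
    have h4 : (1 : 𝓞 K) ∈ w.asIdeal := by
      have hb := Nat.gcd_eq_gcd_ab n p
      rw [hc] at hb
      have hb' : (1 : 𝓞 K) = (n : 𝓞 K) * (Nat.gcdA n p : 𝓞 K) + (p : 𝓞 K) * (Nat.gcdB n p : 𝓞 K) := by
        have := congrArg (fun z : ℤ => (z : 𝓞 K)) hb
        push_cast at this
        exact this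
      rw [hb']
      exact w.asIdeal.add_mem (w.asIdeal.mul_mem_right _ h) (w.asIdeal.mul_mem_right _ hw)
    exact w.isPrime.ne_top ((Ideal.eq_top_iff_one _).2 h4)
  have h5 : w.valuation K ((n : ℕ) : K) = 1 := by
    have h := (w.valuation_eq_one_iff_notMem (K := K) (r := ((n : ℕ) : 𝓞 K))).2 h3
    have e : algebraMap (𝓞 K) K ((n : ℕ) : 𝓞 K) = ((n : ℕ) : K) := map_natCast _ _
    rw [e] at h
    exact h
  have h6 : w.valuation K ((n : K) * (y i / y j)) ≤ 1 := by
    have : w.valuation K (algebraMap (𝓞 K) K ⟨_, hint⟩) ≤ 1 := w.valuation_le_one _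
    exact this
  rw [map_mul, h5, one_mul, map_div₀] at h6
  have h7 : w.valuation K (y j) ≠ 0 := by
    rw [Valuation.ne_zero_iff]; exact hy j
  have h8 := mul_le_mul_left h6 (w.valuation K (y j))
  rw [div_mul_cancel₀ _ h7, one_mul] at h8
  exact h8

theorem gpr : GprStmt := by
  intro ι _ _ d H
  obtain ⟨N, hN⟩ := exists_nat_gt (max H 2)
  obtain ⟨p, hp1, hp⟩ := Nat.exists_infinite_primes N
  obtain ⟨q, hq1, hq⟩ := Nat.exists_infinite_primes (p + 1)
  refine ⟨q, fun K _ _ _ y hy hH => ⟨p, q, hp, hq, ?_, by omega, le_rfl, ?_⟩⟩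
  · have : (2 : ℝ) < N := lt_of_le_of_lt (le_max_right _ _) hN
    have : 2 < N := by exact_mod_cast this
    omega
  · have h1 : H < (N : ℝ) := lt_of_le_of_lt (le_max_left _ _) hN
    have h2 : H < (p : ℝ) := lt_of_lt_of_le h1 (by exact_mod_cast hp1)
    have h3 : H < (q : ℝ) := lt_trans h2 (by exact_mod_cast (by omega : p < q))
    intro w hw i j
    rcases hw with hw | hw
    · exact le_antisymm (le_of_height y hy H hH p hp h2 w hw i j)
        (le_of_height y hy H hH p hp h2 w hw j i)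
    · exact le_antisymm (le_of_height y hy H hH q hq h3 w hw i j)
        (le_of_height y hy H hH q hq h3 w hw j i)

end Pool.Agent.MNU.H16
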